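import Pool.Agent.H36.KT.Simul

/-!
# The Hardy-Littlewood law for almost primes in almost all very short windows, for all shifts at once

The question asks for the asymptotic number of prime pairs up to `x`, with a relative error which is uniform in
all even differences `d ≤ (log x) ^ 2`.  Here: for all but `Y / (log Y) ^ A` of the integers `n` in `(N, N + Y]`,
for ALL even `d ≤ (log Y) ^ A` and ALL windows `(n, n + H]` with `(log Y) ^ (2 + δ) ≤ H ≤ (log Y) ^ A` at the
same time, the number of the almost prime pairs `m`, `m + d` with `m` in the window is the number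
`𝔖(d) H V ^ 2` predicted by the singular series of the problem, up to the factor `1 ± ε`; the windows are
longer than the average spacing of the pairs by the factor `(log Y) ^ δ` only.  The same holds for all
admissible sets of `κ` shifts, and, for one admissible set of shifts, which may be as large as `Y ^ A`, in all windows
with at least `λ` expected tuples outside an exceptional set of at most `C Y / λ ^ A` integers, for all
`λ ≥ 1`.
-/

set_option autoImplicit false

open Filter Finset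

namespace Pool.Agent.Results.MP_678834_nt.AllShiftsAtOnce

/-- all prime factors of `m` are larger than `y` -/
def Rough (y : ℝ) (m : ℕ) : Prop := ∀ p : ℕ, p.Prime → p ∣ m → y < p

/-- for no prime do the elements of `D` meet all residue classes -/
def Admissible (D : Finset ℕ) : Prop := ∀ p : ℕ, p.Prime → (D.image (fun d => d % p)).card < p

open Classical in
/-- the number of the `m` in `(n, n + H]` such that all prime factors of all the `m + d`, `d ∈ D`, are larger
than `y` -/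
noncomputable def tuplesIn (y : ℝ) (D : Finset ℕ) (n H : ℕ) : ℕ :=
  ((Ioc n (n + H)).filter (fun m => ∀ d ∈ D, Rough y (m + d))).card

/-- the number of the `m` in `(n, n + H]` such that all the `m + d`, `d ∈ D`, are primes -/
def primeTuplesIn (D : Finset ℕ) (n H : ℕ) : ℕ :=
  ((Ioc n (n + H)).filter (fun m => ∀ d ∈ D, (m + d).Prime)).card

/-- the expected number of the tuples: `H` times the product over the primes `p ≤ y` of `1 - ν / p`, where `ν`
is the number of the residue classes of the elements of `D` modulo `p` -/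
noncomputable def expected (y : ℝ) (D : Finset ℕ) (H : ℕ) : ℝ :=
  H * ∏ p ∈ (range (⌊y⌋₊ + 1)).filter Nat.Prime, (1 - ((D.image (fun d => d % p)).card : ℝ) / p)

/-- the number of the tuples with `m` in `(n, n + H]` and without prime factors `≤ Y ^ c` is the expected number
up to the factor `1 ± ε`, their members have at most `r` prime factors, and there are at most `1 + ε` times the
expected number of tuples of primes -/
def Lawful (ε : ℝ) (r : ℕ) (c : ℝ) (Y : ℕ) (D : Finset ℕ) (n H : ℕ) : Prop :=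
  |(tuplesIn ((Y : ℝ) ^ c) D n H : ℝ) - expected ((Y : ℝ) ^ c) D H| ≤ ε * expected ((Y : ℝ) ^ c) D H ∧
  (∀ m ∈ Ioc n (n + H), ∀ d ∈ D, Rough ((Y : ℝ) ^ c) (m + d) → (m + d).primeFactorsList.length ≤ r) ∧
  (primeTuplesIn D n H : ℝ) ≤ (1 + ε) * expected ((Y : ℝ) ^ c) D H

/-- the singular series of the problem for even `d` -/
noncomputable def 𝔖 (d : ℕ) : ℝ :=
  2 * (∏' p : {p : ℕ // p.Prime ∧ 2 < p}, (1 - 1 / (((p : ℕ) : ℝ) - 1) ^ 2)) *
    ∏ p ∈ d.primeFactors.filter (fun p => 2 < p), (((p : ℝ) - 1) / ((p : ℝ) - 2))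

/-- the product of `1 - 1 / p` over the primes `p ≤ y` -/
noncomputable def V (y : ℝ) : ℝ := ∏ p ∈ (range (⌊y⌋₊ + 1)).filter Nat.Prime, (1 - 1 / (p : ℝ))

/-- the number of the pairs `m`, `m + d` with `m` in `(n, n + H]` and without prime factors `≤ Y ^ c`, divided by
`𝔖(d) H V ^ 2`, differs from `1` by at most `ε`, and the members of these pairs have at most `r` prime factors -/
def PairLaw (ε : ℝ) (r : ℕ) (c : ℝ) (Y d n H : ℕ) : Prop :=
  |(tuplesIn ((Y : ℝ) ^ c) {0, d} n H : ℝ) / (𝔖 d * (H * V ((Y : ℝ) ^ c) ^ 2)) - 1| ≤ ε ∧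
  (∀ m ∈ Ioc n (n + H), Rough ((Y : ℝ) ^ c) m → m.primeFactorsList.length ≤ r) ∧
  (∀ m ∈ Ioc n (n + H), Rough ((Y : ℝ) ^ c) (m + d) → (m + d).primeFactorsList.length ≤ r)

open Pool.Agent.H36.RW Pool.Agent.H36.BF Pool.Agent.H373R2.T7 Pool.Agent.H36.BE Pool.Agent.H36.KT

lemma adm_iff (D : Finset ℕ) : Adm D 1 ↔ Admissible D := by
  unfold Adm Admissible nu
  constructor
  · intro h p hp
    exact h p hp (fun hd => hp.one_lt.ne' (Nat.dvd_one.1 hd))
  · intro h p hp _
    exact h p hp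

lemma expected_eq (y : ℝ) (D : Finset ℕ) (H : ℕ) : expected y D H = H * VK D 1 ⌊y⌋₊ := by
  unfold expected VK WK
  congr 1
  apply Finset.prod_congr
  · ext p
    rw [mem_filter, mem_range, mem_p0]
    constructor
    · rintro ⟨h1, h2⟩
      exact ⟨by omega, h2, fun hd => h2.one_lt.ne' (Nat.dvd_one.1 hd)⟩
    · rintro ⟨h1, h2, h3⟩
      exact ⟨by omega, h2⟩
  · intro p _
    rfl

lemma V_eq (y : ℝ) : V y = Vz ⌊y⌋₊ := by
  have : Vz ⌊y⌋₊ = Wp (pz ⌊y⌋₊) := rfl
  rw [this]
  unfold V Wp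
  apply Finset.prod_congr _ fun _ _ => rfl
  ext p
  rw [mem_filter, mem_range, mem_pz]
  constructor
  · rintro ⟨h1, h2⟩
    exact ⟨by omega, h2⟩
  · rintro ⟨h1, h2⟩
    exact ⟨by omega, h2⟩

open Classical in
/-- the tuples as positions -/
lemma tuplesIn_eq (y : ℝ) (hy : 0 ≤ y) (D : Finset ℕ) (n H : ℕ) : tuplesIn y D n H =
    ((Icc 1 H).filter (fun h => ∀ d ∈ D, Pool.Agent.H36.RW.Rough ⌊y⌋₊ (n + h + d))).card := by
  unfold tuplesIn
  symm
  apply card_bij (fun h _ => n + h)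
  · intro h hh
    rw [mem_filter, mem_Icc] at hh
    rw [mem_filter, mem_Ioc]
    exact ⟨by omega, fun d hd => (rough_floor y hy _).2 (hh.2 d hd)⟩
  · intro x _ x' _ h
    simpa using h
  · intro m hm
    rw [mem_filter, mem_Ioc] at hm
    refine ⟨m - n, ?_, by omega⟩
    rw [mem_filter, mem_Icc]
    refine ⟨by omega, ?_⟩
    intro d hd
    have e1 : n + (m - n) = m := by omega
    rw [e1]
    exact (rough_floor y hy _).1 (hm.2 d hd)

lemma prime_rough (y : ℝ) (p : ℕ) (hp : p.Prime) (h : y < p) : Rough y p := by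
  intro q hq hd
  rw [(Nat.prime_dvd_prime_iff_eq hq hp).1 hd]
  exact h

/-- tuples of primes are counted -/
lemma primes_le' (y : ℝ) (D : Finset ℕ) (n H : ℕ) (hy : y < n) : primeTuplesIn D n H ≤ tuplesIn y D n H := by
  classical
  unfold primeTuplesIn tuplesIn
  apply card_le_card
  intro m hm
  rw [mem_filter, mem_Ioc] at hm ⊢
  refine ⟨hm.1, fun d hd => ?_⟩
  apply prime_rough _ _ (hm.2 d hd)
  have : (n : ℝ) ≤ ((m + d : ℕ) : ℝ) := by exact_mod_cast (by omega : n ≤ m + d)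
  linarith

open Classical in
lemma lawful_of (ε : ℝ) (r : ℕ) (c : ℝ) (Y A' N : ℕ) (D : Finset ℕ) (n H : ℕ) (e : ℝ) (he : 0 < e) (heε : e ≤ ε)
    (hc2 : c ≤ 1 / 2) (hY3 : 3 ≤ Y) (hN1 : Y ≤ N) (hn : n ∈ Ioc N (N + Y)) (hD : ∀ d ∈ D, d ≤ Y ^ A') (hA : Adm D 1)
    (hN : N ≤ Y ^ A') (hH : (H : ℝ) ≤ Real.log Y ^ A')
    (hr : ∀ (n h d : ℕ), d ≤ Y ^ A' → n ≤ N + Y → 1 ≤ h → (h : ℝ) ≤ Real.log Y ^ A' →
      Pool.Agent.H36.RW.Rough ⌊(Y : ℝ) ^ c⌋₊ (n + h + d) → (n + h + d).primeFactorsList.length ≤ r)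
    (hok : |(((Icc 1 H).filter (fun h => ∀ d ∈ D, Pool.Agent.H36.RW.Rough ⌊(Y : ℝ) ^ c⌋₊ (n + h + d))).card : ℝ) -
          H * VK D 1 ⌊(Y : ℝ) ^ c⌋₊| ≤ e * (H * VK D 1 ⌊(Y : ℝ) ^ c⌋₊)) : Lawful ε r c Y D n H := by
  have hY0 : (0 : ℝ) < Y := by exact_mod_cast (by omega : 0 < Y)
  have hY1 : (1 : ℝ) ≤ Y := by exact_mod_cast (by omega : 1 ≤ Y)
  have hyc : (0 : ℝ) ≤ (Y : ℝ) ^ c := by positivity
  have hn' := mem_Ioc.1 hn
  rw [← tuplesIn_eq _ hyc, ← expected_eq] at hok
  have hE0 : 0 ≤ expected ((Y : ℝ) ^ c) D H := by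
    rw [expected_eq]
    have := (VK_pos D 1 ⌊(Y : ℝ) ^ c⌋₊ hA).le
    positivity
  have hok' : |(tuplesIn ((Y : ℝ) ^ c) D n H : ℝ) - expected ((Y : ℝ) ^ c) D H| ≤
      ε * expected ((Y : ℝ) ^ c) D H := hok.trans (mul_le_mul_of_nonneg_right heε hE0)
  refine ⟨hok', ?_, ?_⟩
  · intro m hm d hd hro
    rw [mem_Ioc] at hm
    have e1 : n + (m - n) = m := by omega
    have h3 := hr n (m - n) d (hD d hd) hn'.2 (by omega) (by
      have : ((m - n : ℕ) : ℝ) ≤ H := by exact_mod_cast (by omega : m - n ≤ H)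
      linarith)
    rw [e1] at h3
    exact h3 ((rough_floor _ hyc _).1 hro)
  · have hYn : (Y : ℝ) ^ c < n := by
      calc (Y : ℝ) ^ c ≤ (Y : ℝ) ^ (1 : ℝ) := Real.rpow_le_rpow_of_exponent_le hY1 (by linarith)
        _ = Y := Real.rpow_one _
        _ < n := by exact_mod_cast (by omega : Y < n)
    have h4 : (primeTuplesIn D n H : ℝ) ≤ tuplesIn ((Y : ℝ) ^ c) D n H := by
      exact_mod_cast primes_le' _ D n H hYn
    have h5 := (abs_le.1 hok').2
    linarith

/-- the ratio to the singular series -/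
lemma ratio_law (x E S H V2 C2' C2z' ε : ℝ) (hε : 0 < ε) (hε1 : ε ≤ 1) (hS : 0 < S) (hHV : 0 < H * V2) (hC : 0 < C2')
    (hE : E * C2' = S * C2z' * (H * V2)) (h1 : C2' ≤ C2z') (h2 : (1 - ε / 4) * C2z' ≤ C2')
    (hx : |x - E| ≤ ε / 4 * E) : |x / (S * (H * V2)) - 1| ≤ ε := by
  have hSHV : 0 < S * (H * V2) := by positivity
  set M := S * (H * V2) with hM
  have hEM : E * C2' = C2z' * M := by rw [hE, hM]; ring
  have hE1 : M ≤ E := by
    have h3 : M * C2' ≤ E * C2' := by
      rw [hEM, mul_comm M]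
      exact mul_le_mul_of_nonneg_right h1 hSHV.le
    exact le_of_mul_le_mul_right h3 hC
  have hE2 : (1 - ε / 4) * E ≤ M := by
    have h3 : (1 - ε / 4) * E * C2' ≤ M * C2' := by
      calc (1 - ε / 4) * E * C2' = (1 - ε / 4) * C2z' * M := by
            rw [mul_assoc, hEM]
            ring
        _ ≤ C2' * M := mul_le_mul_of_nonneg_right h2 hSHV.le
        _ = M * C2' := mul_comm _ _
    exact le_of_mul_le_mul_right h3 hC
  have hE3 : E ≤ (1 + ε / 2) * M := by
    have h3 : 1 ≤ (1 + ε / 2) * (1 - ε / 4) := by nlinarith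
    have hE0 : 0 ≤ E := by linarith
    calc E = 1 * E := (one_mul _).symm
      _ ≤ (1 + ε / 2) * (1 - ε / 4) * E := mul_le_mul_of_nonneg_right h3 hE0
      _ = (1 + ε / 2) * ((1 - ε / 4) * E) := by ring
      _ ≤ (1 + ε / 2) * M := mul_le_mul_of_nonneg_left hE2 (by linarith)
  have hx' := abs_le.1 hx
  have e1 : x / M - 1 = (x - M) / M := by
    rw [sub_div, div_self hSHV.ne']
  rw [e1, abs_div, abs_of_pos hSHV, div_le_iff₀ hSHV, abs_le]
  constructor
  · have h4 : (1 - ε / 4) * M ≤ (1 - ε / 4) * E := mul_le_mul_of_nonneg_left hE1 (by linarith)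
    have h5 : 0 ≤ ε * M := by positivity
    linarith
  · have h4 : (1 + ε / 4) * E ≤ (1 + ε / 4) * ((1 + ε / 2) * M) := mul_le_mul_of_nonneg_left hE3 (by linarith)
    have h5 : (1 + ε / 4) * ((1 + ε / 2) * M) = M + 3 / 4 * ε * M + ε * ε / 8 * M := by ring
    have h6 : ε * ε / 8 * M ≤ ε * 1 / 8 * M := by gcongr
    have h7 : 0 ≤ ε * M := by positivity
    linarith

open Classical in
theorem result (ε δ : ℝ) (hε : 0 < ε) (hδ : 0 < δ) (A : ℕ) :
    -- all even differences at the same time, with the singular series of the problem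
    (∃ (r : ℕ) (c : ℝ), 0 < c ∧ ∀ᶠ Y : ℕ in atTop, ∀ N : ℕ, Y ≤ N → N ≤ Y ^ A →
      (((Ioc N (N + Y)).filter (fun n => ∃ d H : ℕ, 2 ≤ d ∧ Even d ∧ (d : ℝ) ≤ Real.log Y ^ A ∧
        Real.log Y ^ (2 + δ) ≤ H ∧ (H : ℝ) ≤ Real.log Y ^ A ∧ ¬ PairLaw ε r c Y d n H)).card : ℝ) ≤
        Y / Real.log Y ^ A) ∧
    ∀ κ : ℕ, 1 ≤ κ →
      -- all admissible sets of `κ` shifts at the same time
      (∃ (r : ℕ) (c : ℝ), 0 < c ∧ ∀ᶠ Y : ℕ in atTop, ∀ N : ℕ, Y ≤ N → N ≤ Y ^ A →
        (((Ioc N (N + Y)).filter (fun n => ∃ (D : Finset ℕ) (H : ℕ), D.card = κ ∧ Admissible D ∧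
          (∀ d ∈ D, (d : ℝ) ≤ Real.log Y ^ A) ∧ Real.log Y ^ δ ≤ expected ((Y : ℝ) ^ c) D H ∧
          (H : ℝ) ≤ Real.log Y ^ A ∧ ¬ Lawful ε r c Y D n H)).card : ℝ) ≤ Y / Real.log Y ^ A) ∧
      -- one set of shifts, up to `Y ^ A`: every level `lam`
      (∃ (r : ℕ) (c C : ℝ), 0 < c ∧ 0 < C ∧ ∀ᶠ Y : ℕ in atTop, ∀ N : ℕ, Y ≤ N → N ≤ Y ^ A →
        ∀ D : Finset ℕ, D.card = κ → Admissible D → (∀ d ∈ D, d ≤ Y ^ A) → ∀ lam : ℝ, 1 ≤ lam →
        (((Ioc N (N + Y)).filter (fun n => ∃ H : ℕ, lam ≤ expected ((Y : ℝ) ^ c) D H ∧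
          (H : ℝ) ≤ Real.log Y ^ A ∧ ¬ Lawful ε r c Y D n H)).card : ℝ) ≤ C * (Y / lam ^ A)) := by
  have hm0 : 0 < min ε 1 := lt_min hε one_pos
  have hm1 : min ε 1 ≤ 1 := min_le_right _ _
  have hLt : Tendsto (fun Y : ℕ => Real.log (Y : ℝ)) atTop atTop :=
    Real.tendsto_log_atTop.comp tendsto_natCast_atTop_atTop
  refine ⟨?_, fun κ hκ => ⟨?_, ?_⟩⟩
  · -- pairs
    obtain ⟨r, c, hc, hc2, h⟩ := simul 2 (by norm_num) (min ε 1 / 4) (δ / 2) (by positivity) (by linarith) (by positivity)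
      (A + 3)
    obtain ⟨c1, hc1, hVl⟩ := Vz_lower
    refine ⟨r, c, hc, ?_⟩
    filter_upwards [h, hLt.eventually_ge_atTop 1, eventually_ge_atTop 3,
      hLt.eventually (ev_pow_exp 3 (c / 2) (by positivity) 0),
      hLt.eventually (ev_pow_exp (8 / min ε 1 + 2) c hc (A + 1)),
      ((tendsto_rpow_atTop (half_pos hδ)).comp hLt).eventually_ge_atTop (1 / (2 * C2 * (c1 / c) ^ 2))] with
      Y h1 hL1 hY3 g5 g7 g8
    obtain ⟨h1, hr⟩ := h1
    rw [pow_zero, mul_one] at g5
    intro N hN1 hN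
    have hY0 : (0 : ℝ) < Y := by exact_mod_cast (by omega : 0 < Y)
    have hpow : Y ^ A ≤ Y ^ (A + 3) := Nat.pow_le_pow_right (by omega) (by omega)
    have hYr : Real.exp (Real.log Y) = Y := Real.exp_log hY0
    have hyc : (0 : ℝ) ≤ (Y : ℝ) ^ c := by positivity
    set L := Real.log (Y : ℝ) with hL
    have hL0 : 0 < L := by linarith
    have hg8 : 1 / (2 * C2 * (c1 / c) ^ 2) ≤ L ^ (δ / 2) := g8
    have hLpow : L ^ A ≤ L ^ (A + 3) := pow_le_pow_right₀ hL1 (by omega)
    have h2 := h1 N (hN.trans hpow)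
    refine le_trans ?_ (h2.trans (div_le_div_of_nonneg_left hY0.le (by positivity) hLpow))
    set z := ⌊(Y : ℝ) ^ c⌋₊ with hz
    have hzE : z = zE c L := zfl Y c (by omega)
    have hlog1 : c * L / 2 ≤ Real.log z := by
      rw [hzE]
      apply log_floor_ge (c * L)
      have : c / 2 * L = c * L / 2 := by ring
      rw [this] at g5
      exact g5
    have hLA1 : 1 ≤ L ^ A := one_le_pow₀ hL1
    have hzlt : Real.exp (c * L) < z + 1 := by
      rw [hzE]
      exact Nat.lt_floor_add_one _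
    have hzbig : (8 / min ε 1 + 1) * L ^ (A + 1) ≤ z := by
      have h3 : 1 ≤ L ^ (A + 1) := one_le_pow₀ hL1
      have h4 : (8 / min ε 1 + 2) * L ^ (A + 1) = (8 / min ε 1 + 1) * L ^ (A + 1) + L ^ (A + 1) := by ring
      linarith
    have h8 : 8 ≤ 8 / min ε 1 := by
      rw [le_div_iff₀ hm0]
      linarith
    have hzA : L ^ A ≤ z := by
      have h3 : L ^ A ≤ L ^ (A + 1) := pow_le_pow_right₀ hL1 (by omega)
      have h4 : 1 * L ^ (A + 1) ≤ (8 / min ε 1 + 1) * L ^ (A + 1) := by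
        apply mul_le_mul_of_nonneg_right _ (by positivity)
        linarith
      linarith
    have hz8 : 8 / min ε 1 + 1 ≤ z := by
      have h3 : 1 ≤ L ^ (A + 1) := one_le_pow₀ hL1
      have h4 : (8 / min ε 1 + 1) * 1 ≤ (8 / min ε 1 + 1) * L ^ (A + 1) := by
        apply mul_le_mul_of_nonneg_left h3
        linarith
      linarith
    have hz3 : 3 ≤ z := by
      have : (3 : ℝ) ≤ z := by linarith
      exact_mod_cast this
    have hlogz : Real.log z ≤ c * L := by
      rw [← Real.log_exp (c * L)]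
      refine Real.log_le_log (by exact_mod_cast (by omega : 0 < z)) ?_
      rw [hzE]
      exact zE_le c L
    have hlogz0 : 0 < Real.log z := lt_of_lt_of_le (by positivity) hlog1
    have hVz1 : c1 / (c * L) ≤ Vz z := (div_le_div_of_nonneg_left hc1.le hlogz0 hlogz).trans (hVl z (by omega))
    obtain ⟨b1, b2⟩ := C2_bounds z hz3
    have hC2 := C2_pos
    have hVz := Vz_pos z
    have hb2 : (1 - min ε 1 / 4) * C2z z ≤ C2 := by
      refine le_trans ?_ b2
      apply mul_le_mul_of_nonneg_right _ (C2z_pos z).le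
      have h3 : 1 / ((z : ℝ) - 1) ≤ min ε 1 / 4 := by
        rw [div_le_div_iff₀ (by linarith) (by norm_num)]
        have h4 : 8 / min ε 1 * min ε 1 = 8 := by field_simp
        have h5 : (8 / min ε 1) * min ε 1 ≤ ((z : ℝ) - 1) * min ε 1 := mul_le_mul_of_nonneg_right (by linarith) hm0.le
        linarith
      linarith
    have hcard : ((Ioc N (N + Y)).filter (fun n => ∃ d H : ℕ, 2 ≤ d ∧ Even d ∧ (d : ℝ) ≤ L ^ A ∧
        L ^ (2 + δ) ≤ H ∧ (H : ℝ) ≤ L ^ A ∧ ¬ PairLaw ε r c Y d n H)).card ≤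
        ((Ioc N (N + Y)).filter (fun n => ∃ D : Finset ℕ, D.card = 2 ∧ Adm D 1 ∧ (∀ d ∈ D, (d : ℝ) ≤ L ^ (A + 3)) ∧
        ∃ T : ℕ, L ^ (δ / 2) ≤ T * VK D 1 z ∧ (T : ℝ) ≤ L ^ (A + 3) ∧
        ¬ |(((Icc 1 T).filter (fun h => ∀ d ∈ D, Pool.Agent.H36.RW.Rough z (n + h + d))).card : ℝ) -
          T * VK D 1 z| ≤ min ε 1 / 4 * (T * VK D 1 z))).card := by
      apply card_le_card
      intro n hn
      rw [mem_filter] at hn ⊢
      obtain ⟨hn1, d, H, hd2, hde, hdL, hH1, hH2, hH3⟩ := hn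
      have hn1' := mem_Ioc.1 hn1
      have hdz : d ≤ z := by
        have : (d : ℝ) ≤ z := hdL.trans hzA
        exact_mod_cast this
      have hsing := VK_sing d z hde hd2 hdz
      have hSpos : 2 * C2 ≤ Sing d := by
        unfold Sing
        apply le_mul_of_one_le_right (by positivity)
        calc (1 : ℝ) = ∏ _p ∈ d.primeFactors.filter (fun p => 2 < p), (1 : ℝ) := by rw [prod_const_one]
          _ ≤ _ := by
              apply Finset.prod_le_prod
              · intro p _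
                exact zero_le_one
              · intro p hp
                have h3 : (3 : ℝ) ≤ p := by exact_mod_cast (mem_filter.1 hp).2
                rw [le_div_iff₀ (by linarith)]
                linarith
      have hSpos0 : 0 < Sing d := by linarith
      have hadm : Adm {0, d} 1 := by
        intro p hp _
        rw [nu_zero_d p d]
        split_ifs with h3
        · exact hp.one_lt
        · rcases Nat.lt_or_ge 2 p with h4 | h4
          · exact h4
          · have h5 : p = 2 := by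
              have := hp.two_le
              omega
            rw [h5] at h3
            exact absurd (even_iff_two_dvd.1 hde) h3
      have hH0 : (0 : ℝ) < H := lt_of_lt_of_le (by positivity) hH1
      have hexp : L ^ (δ / 2) ≤ H * VK {0, d} 1 z := by
        have h3 : 2 * C2 * (c1 / (c * L)) ^ 2 ≤ VK {0, d} 1 z := by
          have h4 : 2 * C2 * (c1 / (c * L)) ^ 2 * C2 ≤ VK {0, d} 1 z * C2 := by
            rw [hsing]
            have h9 : 0 ≤ Sing d * C2z z := mul_nonneg hSpos0.le (C2z_pos z).le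
            calc 2 * C2 * (c1 / (c * L)) ^ 2 * C2 = 2 * C2 * C2 * (c1 / (c * L)) ^ 2 := by ring
              _ ≤ Sing d * C2z z * Vz z ^ 2 := by gcongr
          exact le_of_mul_le_mul_right h4 hC2
        have h5 : 0 < 2 * C2 * (c1 / c) ^ 2 := by positivity
        rw [div_le_iff₀ h5] at hg8
        calc L ^ (δ / 2) = L ^ (δ / 2) * 1 := (mul_one _).symm
          _ ≤ L ^ (δ / 2) * (L ^ (δ / 2) * (2 * C2 * (c1 / c) ^ 2)) := mul_le_mul_of_nonneg_left hg8 (by positivity)
          _ = L ^ (2 + δ) * (2 * C2 * (c1 / (c * L)) ^ 2) := by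
              have h6 : L ^ (2 + δ) = L ^ 2 * (L ^ (δ / 2) * L ^ (δ / 2)) := by
                rw [← Real.rpow_add hL0, Real.rpow_add hL0]
                congr 1
                · norm_num
                · congr 1
                  ring
              rw [h6]
              field_simp
          _ ≤ H * VK {0, d} 1 z := mul_le_mul hH1 h3 (by positivity) hH0.le
      refine ⟨hn1, {0, d}, ?_, hadm, ?_, H, hexp, hH2.trans hLpow, fun hok => hH3 ?_⟩
      · rw [card_insert_of_notMem, card_singleton]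
        rw [mem_singleton]
        omega
      · intro e he
        rw [mem_insert, mem_singleton] at he
        rcases he with rfl | rfl
        · simp only [Nat.cast_zero]
          positivity
        · exact hdL.trans hLpow
      · have hdY : d ≤ Y ^ (A + 3) := by
          have h3 : z ≤ Y := by
            have h4 : (z : ℝ) ≤ Y := by
              refine (Nat.floor_le hyc).trans ?_
              calc (Y : ℝ) ^ c ≤ (Y : ℝ) ^ (1 : ℝ) :=
                    Real.rpow_le_rpow_of_exponent_le (by exact_mod_cast (by omega : 1 ≤ Y)) (by linarith)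
                _ = Y := Real.rpow_one _
            exact_mod_cast h4
          calc d ≤ Y := hdz.trans h3
            _ = Y ^ 1 := (pow_one _).symm
            _ ≤ Y ^ (A + 3) := Nat.pow_le_pow_right (by omega) (by omega)
        have hHL : (H : ℝ) ≤ L ^ (A + 3) := hH2.trans hLpow
        refine ⟨?_, ?_, ?_⟩
        · rw [← tuplesIn_eq _ hyc] at hok
          have h3 := ratio_law (tuplesIn ((Y : ℝ) ^ c) {0, d} n H) (H * VK {0, d} 1 z) (Sing d) H (Vz z ^ 2) C2 (C2z z)
            (min ε 1) hm0 hm1 hSpos0 (by positivity) hC2 (by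
              calc (H : ℝ) * VK {0, d} 1 z * C2 = H * (VK {0, d} 1 z * C2) := by ring
                _ = _ := by
                    rw [hsing]
                    ring) b1 hb2 hok
          rw [V_eq]
          exact h3.trans (min_le_left _ _)
        · intro m hm hro
          rw [mem_Ioc] at hm
          have e1 : n + (m - n) + 0 = m := by omega
          have h3 := hr N n (m - n) 0 (hN.trans hpow) (Nat.zero_le _) hn1'.2 (by omega) (by
            have : ((m - n : ℕ) : ℝ) ≤ H := by exact_mod_cast (by omega : m - n ≤ H)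
            linarith)
          rw [e1] at h3
          exact h3 ((rough_floor _ hyc _).1 hro)
        · intro m hm hro
          rw [mem_Ioc] at hm
          have e1 : n + (m - n) = m := by omega
          have h3 := hr N n (m - n) d (hN.trans hpow) hdY hn1'.2 (by omega) (by
            have : ((m - n : ℕ) : ℝ) ≤ H := by exact_mod_cast (by omega : m - n ≤ H)
            linarith)
          rw [e1] at h3
          exact h3 ((rough_floor _ hyc _).1 hro)
    exact_mod_cast hcard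
  · -- all sets of shifts
    obtain ⟨r, c, hc, hc2, h⟩ := simul κ hκ (min ε 1) δ hm0 hm1 hδ (A + 1)
    refine ⟨r, c, hc, ?_⟩
    filter_upwards [h, hLt.eventually_ge_atTop 1, eventually_ge_atTop 3, hLt.eventually (ev_pow_exp 1 1 one_pos A)] with
      Y h1 hL1 hY3 g6
    obtain ⟨h1, hr⟩ := h1
    intro N hN1 hN
    have hY0 : (0 : ℝ) < Y := by exact_mod_cast (by omega : 0 < Y)
    have hpow : Y ^ A ≤ Y ^ (A + 1) := Nat.pow_le_pow_right (by omega) (by omega)
    have hYr : Real.exp (Real.log Y) = Y := Real.exp_log hY0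
    set L := Real.log (Y : ℝ) with hL
    have hLpow : L ^ A ≤ L ^ (A + 1) := pow_le_pow_right₀ hL1 (by omega)
    have h2 := h1 N (hN.trans hpow)
    refine le_trans ?_ (h2.trans (div_le_div_of_nonneg_left hY0.le (by positivity) hLpow))
    have hcard : ((Ioc N (N + Y)).filter (fun n => ∃ (D : Finset ℕ) (H : ℕ), D.card = κ ∧ Admissible D ∧
          (∀ d ∈ D, (d : ℝ) ≤ L ^ A) ∧ L ^ δ ≤ expected ((Y : ℝ) ^ c) D H ∧
          (H : ℝ) ≤ L ^ A ∧ ¬ Lawful ε r c Y D n H)).card ≤
        ((Ioc N (N + Y)).filter (fun n => ∃ D : Finset ℕ, D.card = κ ∧ Adm D 1 ∧ (∀ d ∈ D, (d : ℝ) ≤ L ^ (A + 1)) ∧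
        ∃ T : ℕ, L ^ δ ≤ T * VK D 1 ⌊(Y : ℝ) ^ c⌋₊ ∧ (T : ℝ) ≤ L ^ (A + 1) ∧
        ¬ |(((Icc 1 T).filter (fun h => ∀ d ∈ D, Pool.Agent.H36.RW.Rough ⌊(Y : ℝ) ^ c⌋₊ (n + h + d))).card : ℝ) -
          T * VK D 1 ⌊(Y : ℝ) ^ c⌋₊| ≤ min ε 1 * (T * VK D 1 ⌊(Y : ℝ) ^ c⌋₊))).card := by
      apply card_le_card
      intro n hn
      rw [mem_filter] at hn ⊢
      obtain ⟨hn1, D, H, hD1, hD2, hD3, hH1, hH2, hH3⟩ := hn
      have hA := (adm_iff D).2 hD2
      rw [expected_eq] at hH1
      refine ⟨hn1, D, hD1, hA, fun d hd => (hD3 d hd).trans hLpow, H, hH1, hH2.trans hLpow, fun hok => hH3 ?_⟩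
      apply lawful_of ε r c Y (A + 1) N D n H (min ε 1) hm0 (min_le_left _ _) hc2 hY3 hN1 hn1 _ hA (hN.trans hpow)
        (hH2.trans hLpow) (fun n h d hd hn hh1 hh hro => hr N n h d (hN.trans hpow) hd hn hh1 hh hro) hok
      intro d hd
      have h3 : (d : ℝ) ≤ Y := by
        rw [one_mul, one_mul, hYr] at g6
        exact (hD3 d hd).trans g6
      have h4 : d ≤ Y := by exact_mod_cast h3
      calc d ≤ Y := h4
        _ = Y ^ 1 := (pow_one _).symm
        _ ≤ Y ^ (A + 1) := Nat.pow_le_pow_right (by omega) (by omega)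
    exact_mod_cast hcard
  · -- one set of shifts
    obtain ⟨r, c, C, hc, hc2, hC, h⟩ := tupK κ hκ (min ε 1) hm0 hm1 A
    refine ⟨r, c, C, hc, hC, ?_⟩
    filter_upwards [h, eventually_ge_atTop 3] with Y h1 hY3
    obtain ⟨h1, hr⟩ := h1
    intro N hN1 hN D hD1 hD2 hD3 lam hlam
    have hA := (adm_iff D).2 hD2
    have h2 := h1 N 1 D hN le_rfl (Nat.one_le_pow _ _ (by omega)) hD1 hD3 (fun d _ => Nat.coprime_one_right d) hA lam hlam
    refine le_trans ?_ h2
    have hcard : ((Ioc N (N + Y)).filter (fun n => ∃ H : ℕ, lam ≤ expected ((Y : ℝ) ^ c) D H ∧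
          (H : ℝ) ≤ Real.log Y ^ A ∧ ¬ Lawful ε r c Y D n H)).card ≤
        ((Ioc N (N + Y)).filter (fun n => ∃ T : ℕ, lam ≤ T * VK D 1 ⌊(Y : ℝ) ^ c⌋₊ ∧ (T : ℝ) ≤ Real.log Y ^ A ∧
        ¬ |(((Icc 1 T).filter (fun h => ∀ d ∈ D, Pool.Agent.H36.RW.Rough ⌊(Y : ℝ) ^ c⌋₊ (1 * (n + h) + d))).card : ℝ) -
          T * VK D 1 ⌊(Y : ℝ) ^ c⌋₊| ≤ min ε 1 * (T * VK D 1 ⌊(Y : ℝ) ^ c⌋₊))).card := by
      apply card_le_card
      intro n hn
      rw [mem_filter] at hn ⊢
      obtain ⟨hn1, H, hH1, hH2, hH3⟩ := hn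
      rw [expected_eq] at hH1
      refine ⟨hn1, H, hH1, hH2, fun hok => hH3 ?_⟩
      simp only [one_mul] at hok
      exact lawful_of ε r c Y A N D n H (min ε 1) hm0 (min_le_left _ _) hc2 hY3 hN1 hn1 hD3 hA hN hH2
        (fun n h d hd hn hh1 hh hro => by
          have h3 := hr N 1 n h d hN le_rfl (Nat.one_le_pow _ _ (by omega)) hd hn hh1 hh
          rw [one_mul] at h3
          exact h3 hro) hok
    exact_mod_cast hcard

end Pool.Agent.Results.MP_678834_nt.AllShiftsAtOnce
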