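import Pool.Agent.H31.GP.MultExc

set_option autoImplicit false

/-!
# Multiplicative functions near the almost prime pairs `m, m + d`, uniformly in the even difference `d`

For all even `d ≤ N ^ A` (`A` is arbitrary) the integers `m ≤ N` are considered for which `m` and `m + d` have no prime factor
`≤ y`, where `y` is a small power of `N`. It is shown that `m + b` does not correlate with ANY multiplicative function `g`
with values in the unit disc (`g` may depend on `N`, `d` and `b`): the mean value of `g (m + b)` along these `m` is up to `ε`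
the mean value of `g (m + b)` over the `m ≤ N` for which `m` and `m + d` have no prime factor `≤ w`, where `w` is a constant
which depends on `A` and `ε` only. This holds uniformly for all even `d ≤ N ^ A` and all `b ≤ N` with `b ≠ 0`, `b ≠ d` for which
the sum of `1 / p` over the primes `w < p ≤ y` which divide `b (b - d)` is small; these are all `b ≤ N` but for a proportion of at
most `ε`. A condition of this kind is needed, for a prime `p ≤ y` with `p ∣ b (b - d)` never divides `m + b`. For instance `m + 1`
for all twin almost primes `m, m + 2`, and the middle `m + d / 2` of the pairs if the sum of `1 / p` over the primes `w < p ≤ y` which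
divide `d` is small. In particular the Liouville function `λ (m + b)` takes the values `1` and `-1` asymptotically
equally often.

Proof. Let `f` be the difference of the indicator function of the first set and of the indicator function of the second
one, multiplied by the product of `1 - ν (p) / p` over the primes `w < p ≤ y`. Katai's method in a weighted form, uniformly
for all polynomials of bounded degree with coefficients bounded by a power of `N`: the inequality of Turan and Kubilius for
the two sets (fundamental lemma of the sieve), and then the bilinear sums over `f (p m - b) f (q m - b)` for two large primes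
`p ≠ q`, which are bounded by the fundamental lemma for the product of the two polynomials; their singular series are
estimated on average over `p` and `q` with resultants and the inequality of Brun and Titchmarsh.
-/

namespace Pool.Agent.Results.MP_678834_nt.MultiplicativeNearPairs

open Finset Filter

open Classical in
/-- The integers `1 ≤ m ≤ N` for which all prime factors of `m (m + d)` are larger than `y`. -/
noncomputable def rough (d y N : ℕ) : Finset ℕ :=
  (Icc 1 N).filter (fun m => ∀ p : ℕ, p.Prime → p ∣ m * (m + d) → y < p)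

/-- The product over the primes `p ≤ y` of `1 - ν (p) / p`, where `ν (p)` is the number of the residue classes `m` modulo `p`
with `p ∣ m (m + d)`, so `1` if `p` divides `d` and `2` otherwise. -/
noncomputable def V (d y : ℕ) : ℝ := ∏ p ∈ (range (y + 1)).filter Nat.Prime,
  (1 - (((range p).filter (fun m => p ∣ m * (m + d))).card : ℝ) / p)

/-- The mean value of a function over a finite set. -/
noncomputable def mean (S : Finset ℕ) (g : ℕ → ℂ) : ℂ := (∑ n ∈ S, g n) / (S.card : ℂ)

open Classical in
/-- The sum of `1 / p` over the primes `w < p ≤ y` which divide `b (b - d)`. -/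
noncomputable def defect (d b w y : ℕ) : ℝ :=
  ∑ p ∈ (Ioc w y).filter (fun p : ℕ => p.Prime ∧ (p : ℤ) ∣ (b : ℤ) * (b - d)), 1 / (p : ℝ)

open Pool.Agent.H31 Polynomial

/-- the polynomial -/
noncomputable def pol (d : ℕ) : ℤ[X] := X * (X + C (d : ℤ))

lemma RF_pol (d p n : ℕ) : GP.RF (pol d) p n ↔ p ∣ n * (n + d) := by
  unfold GP.RF pol
  simp only [eval_add, eval_mul, eval_C, eval_X]
  rw [← Int.natCast_dvd_natCast]
  push_cast
  rfl

lemma eval_pol (d b : ℕ) : (pol d).eval (-(b : ℤ)) = (b : ℤ) * (b - d) := by
  unfold pol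
  simp only [eval_add, eval_mul, eval_C, eval_X]
  ring

lemma pol_deg (d : ℕ) : (pol d).natDegree ≤ 2 := by
  unfold pol
  compute_degree

lemma sys_pol (d : ℕ) (hd : Even d) : GP.Sys (pol d) 2 := by
  refine ⟨pol_deg d, fun p hp => ?_⟩
  by_contra hcon
  push Not at hcon
  have h1 := (RF_pol d p 1).1 (hcon 1)
  rw [one_mul] at h1
  obtain ⟨e, he⟩ := hd
  rcases hp.eq_two_or_odd with h2 | h2
  · subst h2; omega
  have h3 : 3 ≤ p := by
    have := hp.two_le
    rcases Nat.lt_or_ge 2 p with h | h
    · exact h
    · have : p = 2 := by omega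
      subst this; omega
  -- `p ∣ 1 + d` and `p ∣ 2 (2 + d)`
  have h4 := (RF_pol d p 2).1 (hcon 2)
  rcases hp.dvd_mul.1 h4 with h5 | h5
  · have := Nat.le_of_dvd (by norm_num) h5
    omega
  · have h6 : p ∣ (2 + d) - (1 + d) := Nat.dvd_sub h5 h1
    have h7 : (2 + d) - (1 + d) = 1 := by omega
    rw [h7] at h6
    exact hp.one_lt.ne' (Nat.dvd_one.1 h6)

lemma coeff_pol (d N A : ℕ) (hN : 1 ≤ N) (hd : d ≤ N ^ A) (i : ℕ) : |(pol d).coeff i| ≤ (N : ℤ) ^ A := by
  have e : pol d = X ^ 2 + C (d : ℤ) * X := by unfold pol; ring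
  have h1 : (1 : ℤ) ≤ (N : ℤ) ^ A := one_le_pow₀ (by exact_mod_cast hN)
  have h2 : (d : ℤ) ≤ (N : ℤ) ^ A := by exact_mod_cast hd
  have h3 : (0 : ℤ) ≤ d := by positivity
  rw [e, coeff_add, coeff_C_mul, coeff_X_pow, coeff_X]
  rcases i with _ | _ | _ | i
  · simp
  · simp; exact_mod_cast hd
  · simp; linarith
  · simp

lemma rough_eq (d y N : ℕ) : rough d y N = GP.roughI (pol d) y (Icc 1 N) := by
  classical
  unfold rough GP.roughI
  apply filter_congr
  intro k _
  simp only [RF_pol]

lemma V_eq (d y : ℕ) : V d y = GP.V (pol d) y := by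
  classical
  unfold V GP.V
  have e : (range (y + 1)).filter Nat.Prime = Pool.Agent.H373R2.T7.pz y := by
    ext p
    rw [mem_filter, mem_range, Pool.Agent.H373R2.T7.mem_pz, Nat.lt_succ_iff]
  rw [e]
  apply prod_congr rfl
  intro p _
  unfold GP.rh
  congr 4
  ext k
  rw [mem_filter, mem_range, GP.mem_ZF, RF_pol, one_mul, add_zero]

lemma defect_eq (d b w y : ℕ) : defect d b w y = GP.hb (pol d) b w y := by
  classical
  unfold defect GP.hb
  apply sum_congr _ fun _ _ => rfl
  ext p
  rw [mem_filter, mem_filter, mem_Ioc, MF.mem_mid, eval_pol]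
  tauto

theorem result :
    (∀ (A : ℕ) (ε : ℝ), 0 < ε → ∃ w₀ : ℕ, ∀ w : ℕ, w₀ ≤ w → ∃ (r : ℕ) (δ : ℝ), 0 < δ ∧ ∀ᶠ N : ℕ in atTop, ∀ d : ℕ, Even d →
      d ≤ N ^ A → ∀ y : ℕ, w ≤ y → y ^ r ≤ N →
      |((rough d y N).card : ℝ) - N * V d y| ≤ ε * (N * V d y) ∧
      (((range (N + 1)).filter (fun b => ¬ defect d b w y ≤ δ)).card : ℝ) ≤ ε * (N + 1) ∧
      ∀ b : ℕ, b ≠ 0 → b ≠ d → b ≤ N → defect d b w y ≤ δ →
        (∀ z : ℕ, w ≤ z → z ≤ y → ∀ g : ℕ → ℂ, (∀ n, ‖g n‖ ≤ 1) → (∀ m n : ℕ, m.Coprime n → g (m * n) = g m * g n) →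
          ‖mean (rough d y N) (fun m => g (m + b)) - mean (rough d z N) (fun m => g (m + b))‖ ≤ ε) ∧
        ‖mean (rough d y N) (fun m => (-1) ^ ArithmeticFunction.cardFactors (m + b))‖ ≤ ε) ∧
    (∀ d b w y : ℕ, b ≠ 0 → b ≠ d → b ≤ w → (b - d : ℤ).natAbs ≤ w → defect d b w y = 0) ∧
    (∀ j d y N : ℕ, N + d < (y + 1) ^ j → ∀ m ∈ rough d y N, m.primeFactorsList.length < j ∧ (m + d).primeFactorsList.length < j) := by
  classical
  refine ⟨?_, ?_, ?_⟩
  · intro A ε hε
    obtain ⟨w0, hw04, h⟩ := GP.multCor2 2 A (by norm_num) ε hε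
    refine ⟨w0, fun w hw => ?_⟩
    obtain ⟨r, δ, hr, hδ, hmain⟩ := h w hw
    refine ⟨r, δ, hδ, ?_⟩
    filter_upwards [hmain, eventually_ge_atTop 1] with N h1 hN d hd hdN y hwy hyr
    have hyN : y ≤ N := by
      have : y ^ 1 ≤ y ^ r := Nat.pow_le_pow_right (by omega) hr
      rw [pow_one] at this
      exact this.trans hyr
    obtain ⟨k1, k2, k3⟩ := h1 (pol d) (sys_pol d hd) (coeff_pol d N A hN hdN) y hwy hyr
    simp only [← rough_eq, ← V_eq, ← defect_eq] at k1 k2 k3
    refine ⟨k1, ?_, ?_⟩
    · have := k2 (N + 1) (by omega)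
      push_cast at this
      convert this using 3
    · intro b hb0 hbd hb hdf
      refine k3 b hb ?_ hdf
      rw [eval_pol]
      have h1 : (b : ℤ) ≠ 0 := by exact_mod_cast hb0
      have h2 : (b : ℤ) - d ≠ 0 := by
        intro h
        apply hbd
        have : (b : ℤ) = d := by linarith
        exact_mod_cast this
      exact mul_ne_zero h1 h2
  · intro d b w y hb0 hbd hb hbd'
    unfold defect
    apply sum_eq_zero
    intro p hp
    exfalso
    rw [mem_filter, mem_Ioc] at hp
    obtain ⟨⟨h1, -⟩, hpp, h2⟩ := hp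
    rw [← Int.natAbs_dvd_natAbs, Int.natAbs_mul, Int.natAbs_natCast, Int.natAbs_natCast] at h2
    rcases hpp.dvd_mul.1 h2 with h3 | h3
    · have := Nat.le_of_dvd (by omega) h3
      omega
    · have := Nat.le_of_dvd (by omega) h3
      omega
  · intro j d y N hj m hm
    unfold rough at hm
    rw [mem_filter, mem_Icc] at hm
    obtain ⟨⟨hm1, hmN⟩, hm2⟩ := hm
    have key : ∀ n : ℕ, n ≠ 0 → n ≤ N + d → n ∣ m * (m + d) → n.primeFactorsList.length < j := by
      intro n hn0 hn hnd
      have h1 : (y + 1) ^ n.primeFactorsList.length ≤ n := by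
        conv_rhs => rw [← Nat.prod_primeFactorsList hn0]
        apply List.pow_card_le_prod
        intro p hp
        exact hm2 p (Nat.prime_of_mem_primeFactorsList hp) ((Nat.dvd_of_mem_primeFactorsList hp).trans hnd)
      by_contra h
      push Not at h
      have h2 : (y + 1) ^ j ≤ n := le_trans (Nat.pow_le_pow_right (by omega) h) h1
      omega
    exact ⟨key m (by omega) (by omega) (dvd_mul_right _ _), key (m + d) (by omega) (by omega) (dvd_mul_left _ _)⟩

end Pool.Agent.Results.MP_678834_nt.MultiplicativeNearPairs
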