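import Pool.Agent.H14.SK.AbsU
import Pool.Agent.H14.VC.Pair

/-!
# Almost prime pairs `m`, `m + d` with `m - 1` in the difference set of a sparse set, uniformly in `d`
-/

set_option autoImplicit false

namespace Pool.Agent.Results.MP_678834_nt.PairDifferences

open Finset
open Pool.Agent.H14.MS (VP VP_ge fac_nonneg)
open Pool.Agent.H14.SK (rho PV unif_abs)

/-- all prime factors of `m` are larger than `y`, and there are at most `r` of them, counted with
multiplicity -/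
def AlmostPrime (y : ℝ) (r m : ℕ) : Prop :=
  (∀ p : ℕ, p.Prime → p ∣ m → y < p) ∧ ArithmeticFunction.cardFactors m ≤ r

/-- the arithmetic factor of the singular series: `𝔖(d) = 2 C₂ · G d` for even `d` -/
noncomputable def G (d : ℕ) : ℝ :=
  ∏ p ∈ d.primeFactors.filter (fun p => 3 ≤ p), ((p : ℝ) - 1) / ((p : ℝ) - 2)

/-- the sieve condition -/
def Bad (d p : ℕ) (n : ℤ) : Prop := (p : ℤ) ∣ n + 1 ∨ (p : ℤ) ∣ n + 1 + d

lemma bad_per (d : ℕ) : ∀ p : ℕ, ∀ n m : ℤ, (p : ℤ) ∣ n - m → (Bad d p n ↔ Bad d p m) := by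
  intro p n m h
  unfold Bad
  have e1 : ∀ c : ℤ, (p : ℤ) ∣ n + c ↔ (p : ℤ) ∣ m + c := by
    intro c
    have e : n + c = (m + c) + (n - m) := by ring
    rw [e]
    exact dvd_add_left h
  rw [e1 1]
  have := e1 (1 + d)
  rw [← add_assoc, ← add_assoc] at this
  rw [this]

open Classical in
lemma one_res (p : ℕ) (_hp : p.Prime) (c : ℤ) :
    ((range p).filter (fun r : ℕ => (p : ℤ) ∣ (r : ℤ) + c)).card ≤ 1 := by
  rw [card_le_one]
  intro x hx y hy
  rw [mem_filter, mem_range] at hx hy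
  have h3 : (p : ℤ) ∣ (x : ℤ) - y := by
    have := dvd_sub hx.2 hy.2
    have e : (x : ℤ) + c - (y + c) = (x : ℤ) - y := by ring
    rwa [e] at this
  have h4 : x ≡ y [MOD p] := by
    rw [← Int.natCast_modEq_iff]
    exact (Int.modEq_iff_dvd.2 (by
      have := dvd_neg.2 h3
      rwa [neg_sub] at this))
  exact Nat.ModEq.eq_of_lt_of_lt h4 hx.1 hy.1

open Classical in
lemma rho_le_two (d p : ℕ) (hp : p.Prime) : rho (Bad d) p ≤ 2 := by
  have h1 : (range p).filter (fun r : ℕ => Bad d p r) ⊆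
      (range p).filter (fun r : ℕ => (p : ℤ) ∣ (r : ℤ) + 1) ∪
      (range p).filter (fun r : ℕ => (p : ℤ) ∣ (r : ℤ) + (1 + d)) := by
    intro r hr
    rw [mem_union, mem_filter, mem_filter]
    obtain ⟨h2, h3 | h3⟩ := mem_filter.1 hr
    · left; exact ⟨h2, h3⟩
    · right; exact ⟨h2, by rwa [← add_assoc]⟩
  unfold rho
  refine (card_le_card h1).trans ((card_union_le _ _).trans ?_)
  have := one_res p hp 1
  have := one_res p hp (1 + d)
  omega

open Classical in
lemma rho_le_one (d p : ℕ) (hp : p.Prime) (hpd : p ∣ d) : rho (Bad d) p ≤ 1 := by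
  have h1 : (range p).filter (fun r : ℕ => Bad d p r) ⊆
      (range p).filter (fun r : ℕ => (p : ℤ) ∣ (r : ℤ) + 1) := by
    intro r hr
    rw [mem_filter]
    obtain ⟨h2, h3 | h3⟩ := mem_filter.1 hr
    · exact ⟨h2, h3⟩
    · refine ⟨h2, ?_⟩
      have h4 : (p : ℤ) ∣ d := by exact_mod_cast hpd
      exact (dvd_add_left h4).1 h3
  unfold rho
  exact (card_le_card h1).trans (one_res p hp 1)

/-- a positive integer `m ≤ N ^ B` without prime factors up to `N ^ κ` has few prime factors -/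
lemma omega_le (κ : ℝ) (hκ : 0 < κ) (N B m : ℕ) (hN : 2 ≤ N) (hm : m ≠ 0) (hmN : m ≤ N ^ B)
    (h : ∀ p : ℕ, p.Prime → p ∣ m → (N : ℝ) ^ κ < p) :
    (ArithmeticFunction.cardFactors m : ℝ) ≤ B / κ := by
  have hN0 : (0 : ℝ) < N := by exact_mod_cast (by omega : 0 < N)
  have hN1 : (1 : ℝ) < N := by exact_mod_cast (by omega : 1 < N)
  have hL : 0 < Real.log N := Real.log_pos hN1
  have h1 : ((N : ℝ) ^ κ) ^ (m.primeFactorsList.length) ≤ (m : ℝ) := by
    have h2 : ((N : ℝ) ^ κ) ^ (m.primeFactorsList.length) ≤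
        ((m.primeFactorsList.map (fun p : ℕ => (p : ℝ))).prod) := by
      have : ∀ l : List ℕ, (∀ p ∈ l, (N : ℝ) ^ κ ≤ p) →
          ((N : ℝ) ^ κ) ^ l.length ≤ (l.map (fun p : ℕ => (p : ℝ))).prod := by
        intro l
        induction l with
        | nil => intro _; simp
        | cons a l ih =>
          intro hl
          rw [List.length_cons, pow_succ, List.map_cons, List.prod_cons, mul_comm]
          apply mul_le_mul (hl a (by simp)) (ih fun p hp => hl p (by simp [hp])) (by positivity)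
            (by positivity)
      apply this
      intro p hp
      exact (h p (Nat.prime_of_mem_primeFactorsList hp) (Nat.dvd_of_mem_primeFactorsList hp)).le
    refine h2.trans ?_
    have h3 : (m.primeFactorsList.map (fun p : ℕ => (p : ℝ))).prod = ((m.primeFactorsList.prod : ℕ) : ℝ) := by
      rw [Nat.cast_list_prod]
    rw [h3, Nat.prod_primeFactorsList hm]
  rw [ArithmeticFunction.cardFactors_apply, le_div_iff₀ hκ]
  have h4 : (m : ℝ) ≤ (N : ℝ) ^ B := by exact_mod_cast hmN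
  have h5 := Real.log_le_log (by positivity) (h1.trans h4)
  rw [Real.log_pow, Real.log_pow, Real.log_rpow hN0] at h5
  have h6 : ((m.primeFactorsList.length : ℝ) * κ) * Real.log N ≤ B * Real.log N := by linarith
  exact le_of_mul_le_mul_right h6 hL

/-- the reference sieve condition -/
def Ref (p : ℕ) (n : ℤ) : Prop := 4 < p ∧ ((p : ℤ) ∣ n + 1 ∨ (p : ℤ) ∣ n + 2)

open Classical in
/-- Mertens' theorem in dimension two -/
lemma mertens_two : ∃ c : ℝ, 0 < c ∧ ∀ N : ℕ, 3 ≤ N →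
    c / Real.log N ^ 2 ≤ ∏ p ∈ (Ioc 4 N).filter Nat.Prime, (1 - 2 / (p : ℝ)) := by
  obtain ⟨c, hc, h⟩ := VP_ge 2 4 (by norm_num)
  refine ⟨c, hc, ?_⟩
  intro N hN
  have hρ : ∀ p : ℕ, p.Prime → rho Ref p ≤ 2 := by
    intro p hp
    have h1 : (range p).filter (fun r : ℕ => Ref p r) ⊆
        (range p).filter (fun r : ℕ => (p : ℤ) ∣ (r : ℤ) + 1) ∪
        (range p).filter (fun r : ℕ => (p : ℤ) ∣ (r : ℤ) + 2) := by
      intro r hr
      rw [mem_union, mem_filter, mem_filter]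
      obtain ⟨h2, -, h3 | h3⟩ := mem_filter.1 hr
      · left; exact ⟨h2, h3⟩
      · right; exact ⟨h2, h3⟩
    unfold rho
    refine (card_le_card h1).trans ((card_union_le _ _).trans ?_)
    have := one_res p hp 1
    have := one_res p hp 2
    omega
  refine (h Ref hρ (fun p _ hp4 hR => absurd hR.1 (by omega)) N hN).trans ?_
  unfold VP
  have hsub : (Ioc 4 N).filter Nat.Prime ⊆ (range (N + 1)).filter Nat.Prime := by
    intro p hp
    rw [mem_filter, mem_Ioc] at hp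
    rw [mem_filter, mem_range]
    exact ⟨by omega, hp.2⟩
  rw [← prod_sdiff hsub]
  have h3 : ∏ p ∈ (range (N + 1)).filter Nat.Prime \ (Ioc 4 N).filter Nat.Prime,
      (1 - (rho Ref p : ℝ) / p) ≤ 1 := by
    apply prod_le_one
    · intro p hp
      exact fac_nonneg Ref p (mem_filter.1 (mem_sdiff.1 hp).1).2
    · intro p _
      have : (0 : ℝ) ≤ (rho Ref p : ℝ) / p := by positivity
      linarith
  calc _ ≤ 1 * ∏ p ∈ (Ioc 4 N).filter Nat.Prime, (1 - (rho Ref p : ℝ) / p) :=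
        mul_le_mul_of_nonneg_right h3 (prod_nonneg fun p hp => fac_nonneg Ref p (mem_filter.1 hp).2)
    _ = ∏ p ∈ (Ioc 4 N).filter Nat.Prime, (1 - (rho Ref p : ℝ) / p) := one_mul _
    _ ≤ _ := by
        apply prod_le_prod
        · intro p hp
          exact fac_nonneg Ref p (mem_filter.1 hp).2
        · intro p hp
          rw [mem_filter, mem_Ioc] at hp
          have h4 : 2 ≤ rho Ref p := by
            unfold rho
            have h5 : ({p - 1, p - 2} : Finset ℕ) ⊆ (range p).filter (fun r : ℕ => Ref p r) := by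
              intro x hx
              rw [mem_insert, mem_singleton] at hx
              rw [mem_filter, mem_range]
              rcases hx with rfl | rfl
              · refine ⟨by omega, hp.1.1, Or.inl ?_⟩
                have : (((p - 1 : ℕ) : ℤ)) + 1 = p := by omega
                rw [this]
              · refine ⟨by omega, hp.1.1, Or.inr ?_⟩
                have : (((p - 2 : ℕ) : ℤ)) + 2 = p := by omega
                rw [this]
            have h6 : ({p - 1, p - 2} : Finset ℕ).card = 2 := by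
              rw [card_pair]
              omega
            rw [← h6]
            exact card_le_card h5
          have h5 : (2 : ℝ) ≤ rho Ref p := by exact_mod_cast h4
          have h6 : (2 : ℝ) / p ≤ (rho Ref p : ℝ) / p := by gcongr
          linarith

open Classical in
/-- the sifting product and the singular series -/
lemma PV_ge (B : ℕ) : ∃ c : ℝ, 0 < c ∧ ∀ N d : ℕ, 3 ≤ N → 0 < d → d ≤ N ^ B →
    c * G d / Real.log N ^ 2 ≤ PV (Bad d) 4 N := by
  obtain ⟨c, hc, hM⟩ := mertens_two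
  refine ⟨c / 2 ^ (B + 1), by positivity, ?_⟩
  intro N d hN hd hdN
  have hL : 0 < Real.log N := Real.log_pos (by exact_mod_cast (by omega : 1 < N))
  -- the primes of the product
  obtain ⟨P, hP⟩ : ∃ P, P = (Ioc 4 N).filter Nat.Prime := ⟨_, rfl⟩
  have hPp : ∀ p ∈ P, p.Prime ∧ 4 < p ∧ p ≤ N := by
    intro p hp
    rw [hP, mem_filter, mem_Ioc] at hp
    exact ⟨hp.2, hp.1.1, hp.1.2⟩
  have h1 : (∏ p ∈ P, (1 - 2 / (p : ℝ))) * ∏ p ∈ P.filter (fun p => p ∣ d), (((p : ℝ) - 1) / ((p : ℝ) - 2)) ≤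
      PV (Bad d) 4 N := by
    rw [prod_filter, ← prod_mul_distrib]
    unfold PV
    rw [← hP]
    apply prod_le_prod
    · intro p hp
      obtain ⟨-, h4, -⟩ := hPp p hp
      have h5 : (4 : ℝ) < p := by exact_mod_cast h4
      have h6 : (0 : ℝ) ≤ 1 - 2 / p := by
        rw [sub_nonneg, div_le_one (by linarith)]
        linarith
      apply mul_nonneg h6
      split_ifs
      · apply div_nonneg <;> linarith
      · norm_num
    · intro p hp
      obtain ⟨hpp, h4, -⟩ := hPp p hp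
      have h5 : (4 : ℝ) < p := by exact_mod_cast h4
      split_ifs with h
      · have h7 : (rho (Bad d) p : ℝ) ≤ 1 := by exact_mod_cast rho_le_one d p hpp h
        have h8 : (1 - 2 / (p : ℝ)) * (((p : ℝ) - 1) / ((p : ℝ) - 2)) = 1 - 1 / p := by
          have : (p : ℝ) - 2 ≠ 0 := by linarith
          have : (p : ℝ) ≠ 0 := by linarith
          field_simp
        rw [h8]
        have h9 : (rho (Bad d) p : ℝ) / p ≤ 1 / p := by gcongr
        linarith
      · have h7 : (rho (Bad d) p : ℝ) ≤ 2 := by exact_mod_cast rho_le_two d p hpp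
        have h9 : (rho (Bad d) p : ℝ) / p ≤ 2 / p := by gcongr
        linarith
  -- the singular series
  have h2 : G d ≤ 2 ^ (B + 1) * ∏ p ∈ P.filter (fun p => p ∣ d), (((p : ℝ) - 1) / ((p : ℝ) - 2)) := by
    unfold G
    obtain ⟨D, hD⟩ : ∃ D, D = d.primeFactors.filter (fun p => 3 ≤ p) := ⟨_, rfl⟩
    rw [← hD]
    have hDp : ∀ p ∈ D, p.Prime ∧ p ∣ d ∧ 3 ≤ p := by
      intro p hp
      rw [hD, mem_filter] at hp
      exact ⟨Nat.prime_of_mem_primeFactors hp.1, Nat.dvd_of_mem_primeFactors hp.1, hp.2⟩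
    have hsub : P.filter (fun p => p ∣ d) ⊆ D := by
      intro p hp
      rw [mem_filter] at hp
      obtain ⟨hpp, h4, -⟩ := hPp p hp.1
      rw [hD, mem_filter]
      exact ⟨Nat.mem_primeFactors.2 ⟨hpp, hp.2, hd.ne'⟩, by omega⟩
    have hpos : ∀ p ∈ D, 0 ≤ ((p : ℝ) - 1) / ((p : ℝ) - 2) ∧ ((p : ℝ) - 1) / ((p : ℝ) - 2) ≤ 2 := by
      intro p hp
      obtain ⟨-, -, h3⟩ := hDp p hp
      have h5 : (3 : ℝ) ≤ p := by exact_mod_cast h3
      constructor
      · apply div_nonneg <;> linarith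
      · rw [div_le_iff₀ (by linarith)]
        linarith
    rw [← prod_sdiff hsub]
    apply mul_le_mul_of_nonneg_right
    · calc ∏ p ∈ D \ P.filter (fun p => p ∣ d), (((p : ℝ) - 1) / ((p : ℝ) - 2))
          ≤ ∏ _p ∈ D \ P.filter (fun p => p ∣ d), (2 : ℝ) :=
            prod_le_prod (fun p hp => (hpos p (mem_sdiff.1 hp).1).1) fun p hp => (hpos p (mem_sdiff.1 hp).1).2
        _ = 2 ^ (D \ P.filter (fun p => p ∣ d)).card := by rw [prod_const]
        _ ≤ 2 ^ (B + 1) := by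
            apply pow_le_pow_right₀ (by norm_num)
            -- the prime `3` and the primes above `N`
            have h3 : D \ P.filter (fun p => p ∣ d) ⊆ insert 3 (D.filter (fun p => N < p)) := by
              intro p hp
              rw [mem_sdiff, mem_filter] at hp
              obtain ⟨h4, h5⟩ := hp
              obtain ⟨h6, h7, h8⟩ := hDp p h4
              rw [mem_insert, mem_filter]
              by_cases h9 : p = 3
              · left; exact h9
              · right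
                refine ⟨h4, ?_⟩
                by_contra h10
                apply h5
                refine ⟨?_, h7⟩
                rw [hP, mem_filter, mem_Ioc]
                refine ⟨⟨?_, by omega⟩, h6⟩
                by_contra h11
                have : p = 4 := by omega
                rw [this] at h6
                exact absurd h6 (by norm_num)
            refine (card_le_card h3).trans ((card_insert_le _ _).trans (Nat.add_le_add_right ?_ 1))
            obtain ⟨F, hF⟩ : ∃ F, F = D.filter (fun p => N < p) := ⟨_, rfl⟩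
            rw [← hF]
            have h12 : N ^ F.card ≤ d := by
              calc N ^ F.card = ∏ _p ∈ F, N := by rw [prod_const]
                _ ≤ ∏ p ∈ F, p := by
                    apply prod_le_prod' 
                    intro p hp
                    rw [hF, mem_filter] at hp
                    exact hp.2.le
                _ ≤ d := by
                    apply Nat.le_of_dvd hd
                    apply Finset.prod_primes_dvd
                    · intro p hp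
                      rw [hF, mem_filter] at hp
                      exact (hDp p hp.1).1.prime
                    · intro p hp
                      rw [hF, mem_filter] at hp
                      exact (hDp p hp.1).2.1
            exact (Nat.pow_le_pow_iff_right (by omega : 1 < N)).1 (h12.trans hdN)
    · apply prod_nonneg
      intro p hp
      exact (hpos p (hsub hp)).1
  have h3 := hM N hN
  rw [← hP] at h3
  refine le_trans ?_ h1
  have hprod0 : 0 ≤ ∏ p ∈ P.filter (fun p => p ∣ d), (((p : ℝ) - 1) / ((p : ℝ) - 2)) := by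
    apply prod_nonneg
    intro p hp
    have h5 : (4 : ℝ) < p := by exact_mod_cast (hPp p (mem_filter.1 hp).1).2.1
    apply div_nonneg <;> linarith
  calc c / 2 ^ (B + 1) * G d / Real.log N ^ 2
      ≤ c / 2 ^ (B + 1) * (2 ^ (B + 1) * ∏ p ∈ P.filter (fun p => p ∣ d), (((p : ℝ) - 1) / ((p : ℝ) - 2))) /
          Real.log N ^ 2 := by gcongr
    _ = c / Real.log N ^ 2 * ∏ p ∈ P.filter (fun p => p ∣ d), (((p : ℝ) - 1) / ((p : ℝ) - 2)) := by
        field_simp
    _ ≤ _ := mul_le_mul_of_nonneg_right h3 hprod0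

open Classical in
/-- sets of density at least `(log N) ^ (-1 + ε)` -/
theorem dense : ∃ κ : ℝ, 0 < κ ∧ ∀ B : ℕ, ∃ r : ℕ, ∀ ε : ℝ, 0 < ε → ∃ (C : ℝ) (N₀ : ℕ), 0 < C ∧
    ∀ N : ℕ, N₀ ≤ N → ∀ α : ℝ, 0 < α → Real.log N ^ (-(1 - ε)) ≤ α →
    ∀ d : ℕ, 0 < d → d ≤ N ^ B → (∀ p : ℕ, p.Prime → (p : ℝ) ≤ C * α ^ (-(1 + ε)) → ¬ p ∣ d + 1) →
    ∀ A : Finset ℕ, A ⊆ Icc 1 N → α * N ≤ A.card →
      Real.exp (-(C * α ^ (-(1 + ε)))) * (G d * N ^ 2 / Real.log N ^ 2) ≤
        (((A ×ˢ A).filter (fun x => x.1 < x.2 ∧ AlmostPrime ((N : ℝ) ^ κ) r (x.2 - x.1 + 1) ∧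
          AlmostPrime ((N : ℝ) ^ κ) r (x.2 - x.1 + 1 + d))).card : ℝ) := by
  obtain ⟨κ, hκ, hU⟩ := unif_abs 2
  refine ⟨κ, hκ, ?_⟩
  intro B
  obtain ⟨c, hc, hPV⟩ := PV_ge B
  refine ⟨⌈((B + 2 : ℕ) : ℝ) / κ⌉₊, ?_⟩
  intro ε hε
  obtain ⟨C, N₁, hC, hN₁⟩ := hU ε hε
  obtain ⟨C₀, hC₀⟩ : ∃ C₀ : ℝ, C₀ = max 0 (Real.log (1 / c)) := ⟨_, rfl⟩
  have hC₀0 : 0 ≤ C₀ := by rw [hC₀]; exact le_max_left _ _
  have hC₀1 : Real.exp (-C₀) ≤ c := by
    have h1 : Real.log (1 / c) ≤ C₀ := by rw [hC₀]; exact le_max_right _ _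
    calc Real.exp (-C₀) ≤ Real.exp (-Real.log (1 / c)) := Real.exp_le_exp.2 (by linarith)
      _ = c := by
          rw [Real.exp_neg, Real.exp_log (by positivity), one_div, inv_inv]
  refine ⟨C + C₀, max N₁ 3, by linarith, ?_⟩
  intro N hN α hα hαL d hd hdN hdp A hA hcard
  have hN3 : 3 ≤ N := (le_max_right _ _).trans hN
  have hNr : (3 : ℝ) ≤ N := by exact_mod_cast hN3
  have hL : 0 < Real.log N := Real.log_pos (by linarith)
  have hAN : (A.card : ℝ) ≤ N := by
    have := card_le_card hA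
    rw [Nat.card_Icc, Nat.add_sub_cancel] at this
    exact_mod_cast this
  have hα1 : α ≤ 1 := by
    have := hcard.trans hAN
    by_contra hcon
    push Not at hcon
    nlinarith
  obtain ⟨τ, hτ⟩ : ∃ τ, τ = α ^ (-(1 + ε)) := ⟨_, rfl⟩
  have hτ1 : 1 ≤ τ := by
    rw [hτ]
    exact Real.one_le_rpow_of_pos_of_le_one_of_nonpos hα hα1 (by linarith)
  have hT0 : ∀ p : ℕ, p.Prime → (p : ℝ) ≤ C * α ^ (-(1 + ε)) → ¬ Bad d p 0 := by
    intro p hp hpC h
    rcases h with h | h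
    · rw [zero_add] at h
      exact (Nat.prime_iff_prime_int.1 hp).not_isUnit (isUnit_of_dvd_one h)
    · apply hdp p hp
      · rw [← hτ] at hpC ⊢
        have : C * τ ≤ (C + C₀) * τ := by
          have := mul_nonneg hC₀0 (by linarith : (0 : ℝ) ≤ τ)
          linarith
        linarith
      · have h2 : ((0 : ℤ) + 1 + (d : ℤ)) = ((d + 1 : ℕ) : ℤ) := by push_cast; ring
        rw [h2] at h
        exact_mod_cast h
  have hmain := hN₁ N ((le_max_left _ _).trans hN) (Bad d) (bad_per d) (fun p hp => rho_le_two d p hp) A α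
    hA hα hαL hcard hT0
  rw [← hτ] at hmain ⊢
  have hPV' := hPV N d hN3 hd hdN
  have hG0 : 0 ≤ G d := by
    unfold G
    apply prod_nonneg
    intro p hp
    have h5 : (3 : ℝ) ≤ p := by exact_mod_cast (mem_filter.1 hp).2
    apply div_nonneg <;> linarith
  have hlow : Real.exp (-((C + C₀) * τ)) * (G d * N ^ 2 / Real.log N ^ 2) ≤
      Real.exp (-(C * τ)) * N ^ 2 * PV (Bad d) (2 * 2) N := by
    have h1 : Real.exp (-((C + C₀) * τ)) ≤ Real.exp (-(C * τ)) * c := by
      calc Real.exp (-((C + C₀) * τ)) = Real.exp (-(C * τ)) * Real.exp (-(C₀ * τ)) := by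
            rw [← Real.exp_add]
            congr 1
            ring
        _ ≤ Real.exp (-(C * τ)) * c := by
            apply mul_le_mul_of_nonneg_left _ (Real.exp_pos _).le
            refine le_trans (Real.exp_le_exp.2 ?_) hC₀1
            have := mul_le_mul_of_nonneg_left hτ1 hC₀0
            linarith
    calc Real.exp (-((C + C₀) * τ)) * (G d * N ^ 2 / Real.log N ^ 2)
        ≤ (Real.exp (-(C * τ)) * c) * (G d * N ^ 2 / Real.log N ^ 2) := by gcongr
      _ = Real.exp (-(C * τ)) * N ^ 2 * (c * G d / Real.log N ^ 2) := by ring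
      _ ≤ Real.exp (-(C * τ)) * N ^ 2 * PV (Bad d) (2 * 2) N := by gcongr
  refine hlow.trans (hmain.trans ?_)
  apply Nat.cast_le.2
  apply card_le_card
  intro x hx
  rw [mem_filter, mem_product] at hx
  obtain ⟨⟨hx1, hx2⟩, hlt, hx3⟩ := hx
  rw [mem_filter, mem_product]
  have hxN : x.2 ≤ N := (mem_Icc.1 (hA hx2)).2
  have hpow : N ^ 1 ≤ N ^ (B + 1) := Nat.pow_le_pow_right (by omega) (by omega)
  have hval : x.2 - x.1 + 1 + d ≤ N ^ (B + 2) := by
    have h1 : x.2 - x.1 + 1 ≤ N := by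
      have := (mem_Icc.1 (hA hx1)).1
      omega
    calc x.2 - x.1 + 1 + d ≤ N ^ (B + 1) + N ^ (B + 1) := by
          have h2 : N ^ B ≤ N ^ (B + 1) := Nat.pow_le_pow_right (by omega) (by omega)
          rw [pow_one] at hpow
          omega
      _ = 2 * N ^ (B + 1) := by ring
      _ ≤ N * N ^ (B + 1) := Nat.mul_le_mul_right _ (by omega)
      _ = N ^ (B + 2) := by ring
  have hcast : ((x.2 - x.1 : ℕ) : ℤ) = (x.2 : ℤ) - x.1 := by omega
  have hr1 : ∀ p : ℕ, p.Prime → p ∣ x.2 - x.1 + 1 → (N : ℝ) ^ κ < p := by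
    intro p hp hd1
    by_contra hle
    apply hx3 p hp (not_lt.1 hle)
    left
    rw [← hcast]
    exact_mod_cast hd1
  have hr2 : ∀ p : ℕ, p.Prime → p ∣ x.2 - x.1 + 1 + d → (N : ℝ) ^ κ < p := by
    intro p hp hd1
    by_contra hle
    apply hx3 p hp (not_lt.1 hle)
    right
    rw [← hcast]
    exact_mod_cast hd1
  refine ⟨⟨hx1, hx2⟩, hlt, ⟨hr1, ?_⟩, ⟨hr2, ?_⟩⟩
  · have h3 := omega_le κ hκ N (B + 2) _ (by omega) (by omega) (le_trans (by omega) hval) hr1
    exact Nat.cast_le.1 (h3.trans (Nat.le_ceil _))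
  · have h3 := omega_le κ hκ N (B + 2) _ (by omega) (by omega) hval hr2
    exact Nat.cast_le.1 (h3.trans (Nat.le_ceil _))

open Classical in
/-- sets with at least `N ^ (1 - κ)` elements -/
theorem sparse :
    ∀ θ : ℝ, 0 < θ → ∃ κ : ℝ, 0 < κ ∧ ∀ B : ℕ, ∃ r : ℕ, ∀ ε : ℝ, 0 < ε →
      ∃ N₀ : ℕ, ∀ N : ℕ, N₀ ≤ N →
      (∀ d h : ℕ, d ≤ N ^ B → h ≤ N ^ B →
        (∀ p : ℕ, p.Prime → (p : ℝ) ≤ (N : ℝ) ^ κ → ¬ p ∣ h ∧ ¬ p ∣ h + d) →
        ∀ (u : ℕ) (A : Finset ℕ), A ⊆ Ioc u (u + N) → (N : ℝ) ^ (1 - κ) ≤ A.card →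
          (A.card : ℝ) ^ 2 * (N : ℝ) ^ (-ε) ≤
            ((A ×ˢ A).filter (fun x : ℕ × ℕ => x.1 < x.2 ∧
              AlmostPrime ((N : ℝ) ^ κ) r (h + (x.2 - x.1)) ∧
              AlmostPrime ((N : ℝ) ^ κ) r (h + (x.2 - x.1) + d))).card) ∧
      (∀ d : ℕ, Even d → d ≤ N ^ B → ∃ h : ℕ, (h : ℝ) ≤ 2 * (N : ℝ) ^ θ ∧
        ∀ p : ℕ, p.Prime → (p : ℝ) ≤ (N : ℝ) ^ κ → ¬ p ∣ h ∧ ¬ p ∣ h + d) := by
  intro θ hθ
  obtain ⟨κ, hκ, h1⟩ := Pool.Agent.H14.VC.Pair.pair_vc θ hθ
  refine ⟨κ, hκ, ?_⟩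
  intro B
  obtain ⟨r, hr⟩ := h1 B
  refine ⟨r, ?_⟩
  intro ε hε
  obtain ⟨N₀, hN₀⟩ := hr ε hε
  refine ⟨max N₀ 1, ?_⟩
  intro N hN
  have hN1 : 1 ≤ N ^ B := Nat.one_le_pow _ _ ((le_max_right _ _).trans hN)
  obtain ⟨h2, h3⟩ := hN₀ N ((le_max_left _ _).trans hN)
  constructor
  · intro d h hd hh hgood u A hA hcard
    have h4 := h2 d 1 h hd hN1 hh hgood u A hA hcard
    simp only [one_mul] at h4
    exact h4
  · intro d hd hdN
    obtain ⟨h, _, h4, h5⟩ := h3 d 1 1 hd hdN le_rfl hN1 le_rfl (Nat.coprime_one_right _) (Nat.coprime_one_right _)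
    refine ⟨h, ?_, h5⟩
    rwa [Nat.cast_one, mul_one] at h4

open Classical in
/-- **Almost prime pairs `m`, `m + d` with `m - h` in a difference set, uniformly in `d`.** -/
theorem result :
    -- (1) power saving: sets with at least `N ^ (1 - κ)` elements, every shift `h` without small obstruction
    (∀ θ : ℝ, 0 < θ → ∃ κ : ℝ, 0 < κ ∧ ∀ B : ℕ, ∃ r : ℕ, ∀ ε : ℝ, 0 < ε →
      ∃ N₀ : ℕ, ∀ N : ℕ, N₀ ≤ N →
      (∀ d h : ℕ, d ≤ N ^ B → h ≤ N ^ B →
        (∀ p : ℕ, p.Prime → (p : ℝ) ≤ (N : ℝ) ^ κ → ¬ p ∣ h ∧ ¬ p ∣ h + d) →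
        ∀ (u : ℕ) (A : Finset ℕ), A ⊆ Ioc u (u + N) → (N : ℝ) ^ (1 - κ) ≤ A.card →
          (A.card : ℝ) ^ 2 * (N : ℝ) ^ (-ε) ≤
            ((A ×ˢ A).filter (fun x : ℕ × ℕ => x.1 < x.2 ∧
              AlmostPrime ((N : ℝ) ^ κ) r (h + (x.2 - x.1)) ∧
              AlmostPrime ((N : ℝ) ^ κ) r (h + (x.2 - x.1) + d))).card) ∧
      (∀ d : ℕ, Even d → d ≤ N ^ B → ∃ h : ℕ, (h : ℝ) ≤ 2 * (N : ℝ) ^ θ ∧
        ∀ p : ℕ, p.Prime → (p : ℝ) ≤ (N : ℝ) ^ κ → ¬ p ∣ h ∧ ¬ p ∣ h + d)) ∧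
    -- (2) sets of density at least `(log N) ^ (-1 + ε)`, shift `1`, lower bound with the singular series
    (∃ κ : ℝ, 0 < κ ∧ ∀ B : ℕ, ∃ r : ℕ, ∀ ε : ℝ, 0 < ε → ∃ (C : ℝ) (N₀ : ℕ), 0 < C ∧
    ∀ N : ℕ, N₀ ≤ N → ∀ α : ℝ, 0 < α → Real.log N ^ (-(1 - ε)) ≤ α →
    ∀ d : ℕ, 0 < d → d ≤ N ^ B → (∀ p : ℕ, p.Prime → (p : ℝ) ≤ C * α ^ (-(1 + ε)) → ¬ p ∣ d + 1) →
    ∀ A : Finset ℕ, A ⊆ Icc 1 N → α * N ≤ A.card →
      Real.exp (-(C * α ^ (-(1 + ε)))) * (G d * N ^ 2 / Real.log N ^ 2) ≤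
        (((A ×ˢ A).filter (fun x => x.1 < x.2 ∧ AlmostPrime ((N : ℝ) ^ κ) r (x.2 - x.1 + 1) ∧
          AlmostPrime ((N : ℝ) ^ κ) r (x.2 - x.1 + 1 + d))).card : ℝ)) :=
  ⟨sparse, dense⟩

end Pool.Agent.Results.MP_678834_nt.PairDifferences
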