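import Pool.Agent.H56.PD.Pairs
import Pool.Graph.R_pool_sql_team_seeded_1acbe0a2.Y885.PD4

/-!
# The uniform asymptotic formula for prime pairs in windows of differences around the values of polynomials in
# several variables at integers with restricted digits

`F` is ANY integer polynomial of positive degree in any number of variables (for instance a product `x y z`, a
determinant, a norm form, a sum of like powers). For all but few vectors `x` all of whose digits in base `b` are
restricted to arbitrary given sets with at least two elements (for instance: all digits `0` or `1`), the uniform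
asymptotic formula for the number of prime pairs is true for ALL even differences in the window of radius
`(log X) ^ A` around `c + F(x)`, with a relative error `O(log log x / log x)` (the problem asks for
`o((log log x) ^ (-2))` for the window `2 ≤ d ≤ (log x) ^ 2`), and, with an error `X / (log X) ^ C`, also for the primes
in all residue classes modulo all `q ≤ (log X) ^ C`. The set of the values is very thin: for two allowed digits
there are at most `2 ^ (n k)` values, in an interval of length about `b ^ (k D)`, `D` the degree of `F`.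

Method. The large spectrum of the values is thin (module `Pool.Agent.H56.PD`: Weyl differencing with respect to
short blocks of the lowest and of the highest digits, in all combinations); here this is done modulo integers which
are larger than `b ^ (k D)` by a power of the logarithm. The conclusion is then drawn with the theorem of the library
on prime pairs whose difference is random with a thin large spectrum (`Pool.Agent.Y885.tl_goodD`).

Definitions used: `Pool.Agent.H560R3.GB.C₂`, the twin prime constant `∏_{p > 2} (1 - 1 / (p - 1) ^ 2)` (the infimum of the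
partial products).
-/

set_option autoImplicit false

namespace Pool.Agent.Results.MP_678834_nt.ValuesAtRestrictedDigits

open Finset Pool.Agent.H560R3.GB

/-- `π₂(x, d)`: the number of primes `p ≤ x` for which `p - d` is a prime. -/
noncomputable def pi2 (x : ℝ) (d : ℕ) : ℕ :=
  ((range (⌊x⌋₊ + 1)).filter (fun p => p.Prime ∧ (p - d).Prime)).card

/-- the number of primes `p ≤ x` for which `p - d` is a prime in the residue class of `a` modulo `q` -/
noncomputable def pairsIn (x : ℝ) (d a q : ℕ) : ℕ :=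
  ((range (⌊x⌋₊ + 1)).filter (fun p => p.Prime ∧ (p - d).Prime ∧ p - d ≡ a [MOD q])).card

/-- `𝔖(d)`, for even `d > 0`. -/
noncomputable def 𝔖 (d : ℕ) : ℝ :=
  2 * C₂ * ∏ p ∈ d.primeFactors.filter (fun p => 3 ≤ p), ((p : ℝ) - 1) / ((p : ℝ) - 2)

/-- the number of the residue classes `α` modulo `q` for which `α` and `α + d` are coprime to `q` -/
def classes (q d : ℕ) : ℕ := ((range q).filter (fun α => Nat.Coprime α q ∧ Nat.Coprime (α + d) q)).card

/-- the integers `x < b ^ k` whose digits in base `b` are allowed: the digit at `b ^ j` is in `A j` for all `j < k` -/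
def withDigits (b k : ℕ) (A : ℕ → Finset ℕ) : Finset ℕ := (range (b ^ k)).filter (fun x => ∀ j < k, x / b ^ j % b ∈ A j)

/-- For ALL even differences `d ≥ 2` with `|d - m| ≤ (log X) ^ A`: (1) the ratio of `π₂(x, d)` to `𝔖(d) x / (log x) ^ 2` differs
from `1` by at most `20 log log x / log x`, for all `x` between `X / (log X) ^ C` and `X`; (2) for all moduli
`q ≤ (log X) ^ C`, all `a` with `(a, q) = (a + d, q) = 1` and all `2 ≤ x ≤ X` the number of the primes `p ≤ x` for which
`p - d ≡ a (mod q)` is a prime differs from `𝔖(d) / classes q d` times the integral of `1 / (log t) ^ 2` from `2` to `x` by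
at most `X / (log X) ^ C`. -/
def Holds (A C X : ℕ) (m : ℤ) : Prop := ∀ d : ℕ, Even d → 2 ≤ d → |(d : ℝ) - m| ≤ Real.log X ^ A →
  (∀ x : ℝ, X / Real.log X ^ C ≤ x → x ≤ X →
    |(pi2 x d : ℝ) * Real.log x ^ 2 / (𝔖 d * x) - 1| ≤ 20 * Real.log (Real.log x) / Real.log x) ∧
  (∀ q a : ℕ, 1 ≤ q → (q : ℝ) ≤ Real.log X ^ C → Nat.Coprime a q → Nat.Coprime (a + d) q → ∀ x : ℝ, 2 ≤ x → x ≤ X →
    |(pairsIn x d a q : ℝ) - 𝔖 d / classes q d * ∫ t in (2 : ℝ)..x, 1 / Real.log t ^ 2| ≤ X / Real.log X ^ C)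

open Pool.Agent.W93.PP (pc Cnt Li2)

lemma pairsIn_eq (x : ℝ) (d a q : ℕ) (hx : 0 ≤ x) : pc d x a q = pairsIn x d a q := by
  unfold Pool.Agent.W93.PP.pc pairsIn
  refine card_bij (fun p _ => p + d) (fun p hp => ?_) (fun p _ q _ h => by simpa using h) (fun q hq => ?_)
  · rw [mem_filter] at hp ⊢
    refine ⟨?_, hp.2.2.1, by rw [Nat.add_sub_cancel]; exact hp.2.1, by rw [Nat.add_sub_cancel]; exact hp.2.2.2.2⟩
    rw [mem_range, Nat.lt_succ_iff]
    apply Nat.le_floor
    push_cast
    exact hp.2.2.2.1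
  · rw [mem_filter, mem_range, Nat.lt_succ_iff] at hq
    have h5 : d ≤ q := by
      by_contra hcon
      push Not at hcon
      have := hq.2.2.1
      rw [Nat.sub_eq_zero_of_le hcon.le] at this
      exact Nat.not_prime_zero this
    refine ⟨q - d, ?_, Nat.sub_add_cancel h5⟩
    rw [mem_filter, mem_range, Nat.lt_succ_iff, Nat.sub_add_cancel h5]
    have h6 : (q : ℝ) ≤ x := (Nat.cast_le.2 hq.1).trans (Nat.floor_le hx)
    refine ⟨(Nat.sub_le _ _).trans hq.1, hq.2.2.1, hq.2.1, ?_, hq.2.2.2⟩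
    rw [Nat.cast_sub h5]
    linarith

lemma pi2_eq (x : ℝ) (d : ℕ) : pairsIn x d 0 1 = pi2 x d := by
  unfold pairsIn pi2
  congr 1
  ext p
  simp only [mem_filter, Nat.modEq_one, and_true]

/-- the relative error -/
lemma rel (C : ℕ) : ∃ X₀ : ℕ, ∀ X : ℕ, X₀ ≤ X → ∀ d : ℕ, ∀ x : ℝ, X / Real.log X ^ C ≤ x → x ≤ X → 2 ≤ x ∧
    (|(pc d x 0 1 : ℝ) - sing d / Cnt 1 d * Li2 x| ≤ X / Real.log X ^ (C + 4) →
    |(pi2 x d : ℝ) * Real.log x ^ 2 / (𝔖 d * x) - 1| ≤ 20 * Real.log (Real.log x) / Real.log x) := by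
  obtain ⟨n1, h2⟩ := Pool.Agent.H373R2.T7.ev_L' 2048
  obtain ⟨n2, h3⟩ := Pool.Agent.H373R2.T7.ev_log' C 1
  refine ⟨n1 + n2 + 3, fun X hX d x hx1 hx2 => ?_⟩
  have a2 := h2 X (by omega)
  have a3 := h3 X (by omega)
  rw [one_mul] at a3
  have hX3 : (3 : ℝ) ≤ X := by exact_mod_cast (by omega : 3 ≤ X)
  have hXpos : (0 : ℝ) < X := by linarith
  obtain ⟨M, hM⟩ : ∃ M, M = Real.log (X : ℝ) := ⟨_, rfl⟩
  rw [← hM] at a2 a3 hx1 ⊢
  have hM0 : 0 < M := by linarith
  have hMW : 0 < M ^ C := by positivity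
  have hsx : √(X : ℝ) ≤ x := by
    refine le_trans ?_ hx1
    rw [le_div_iff₀ hMW]
    calc √(X : ℝ) * M ^ C ≤ √(X : ℝ) * √(X : ℝ) := mul_le_mul_of_nonneg_left a3 (Real.sqrt_nonneg _)
      _ = X := Real.mul_self_sqrt hXpos.le
  have hs0 : 0 < √(X : ℝ) := Real.sqrt_pos.2 hXpos
  have hx0 : 0 < x := hs0.trans_le hsx
  have hlx : M / 2 ≤ Real.log x := by
    have := Real.log_le_log hs0 hsx
    rw [Real.log_sqrt hXpos.le, ← hM] at this
    exact this
  have hlx2 : Real.log x ≤ M := by rw [hM]; exact Real.log_le_log hx0 hx2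
  have hL := Pool.Agent.Y885.Li2_near x hx0 (by linarith)
  have hx2' : (2 : ℝ) ≤ x := by
    have := Real.log_le_sub_one_of_pos hx0
    linarith
  refine ⟨hx2', fun hg => ?_⟩
  rw [Pool.Agent.Y885.cnt_one, Nat.cast_one, div_one] at hg
  have hs := Pool.Agent.W93.GB.one_le_sing d
  have e1 : 𝔖 d = sing d := by
    unfold 𝔖 sing
    congr 1
  have e2 : pc d x 0 1 = pi2 x d := by rw [pairsIn_eq x d 0 1 hx0.le, pi2_eq]
  rw [e2] at hg
  rw [e1]
  obtain ⟨L, hLL⟩ : ∃ L, L = Real.log x := ⟨_, rfl⟩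
  rw [← hLL] at hL hlx hlx2 ⊢
  obtain ⟨Sg, hSg⟩ : ∃ Sg, Sg = sing d := ⟨_, rfl⟩
  rw [← hSg] at hs hg ⊢
  have hSg0 : 0 < Sg := by linarith
  have hL0 : 0 < L := by linarith
  have hℓ : 1 ≤ Real.log L := by
    rw [Real.le_log_iff_exp_le hL0]
    have := Real.exp_one_lt_d9
    linarith
  have hxL : 0 < x / L ^ 2 := by positivity
  have e1 : (X : ℝ) / M ^ (C + 4) ≤ (Real.log L / L) * (x / L ^ 2) := by
    have e2 : (X : ℝ) / M ^ (C + 4) ≤ x / M ^ 4 := by
      rw [pow_add, div_mul_eq_div_div]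
      exact div_le_div_of_nonneg_right hx1 (by positivity)
    have e3 : x / M ^ 4 ≤ x / L ^ 4 := div_le_div_of_nonneg_left hx0.le (by positivity) (pow_le_pow_left₀ hL0.le hlx2 4)
    have e4 : x / L ^ 4 = (1 / L) * (1 / L) * (x / L ^ 2) := by field_simp
    have e5 : (1 / L) * (1 / L) ≤ Real.log L / L := by
      have : 1 / L ≤ 1 := by rw [div_le_one hL0]; linarith
      calc (1 / L) * (1 / L) ≤ 1 * (1 / L) := mul_le_mul_of_nonneg_right this (by positivity)
        _ = 1 / L := one_mul _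
        _ ≤ _ := div_le_div_of_nonneg_right hℓ hL0.le
    refine e2.trans (e3.trans ?_)
    rw [e4]
    exact mul_le_mul_of_nonneg_right e5 hxL.le
  have hD : 0 ≤ (Real.log L / L) * (x / L ^ 2) := by positivity
  have e7 := mul_le_mul_of_nonneg_left hL hSg0.le
  have e8 : (Real.log L / L) * (x / L ^ 2) ≤ Sg * ((Real.log L / L) * (x / L ^ 2)) := le_mul_of_one_le_left hD hs
  have e9 : |(pi2 x d : ℝ) - Sg * (x / L ^ 2)| ≤ 20 * (Real.log L / L) * (Sg * (x / L ^ 2)) := by
    have e6 : (pi2 x d : ℝ) - Sg * (x / L ^ 2) = ((pi2 x d : ℝ) - Sg * Li2 x) + Sg * (Li2 x - x / L ^ 2) := by ring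
    rw [e6]
    refine (abs_add_le _ _).trans ?_
    rw [abs_mul, abs_of_nonneg hSg0.le]
    nlinarith
  have e3 : (pi2 x d : ℝ) * L ^ 2 / (Sg * x) - 1 = ((pi2 x d : ℝ) - Sg * (x / L ^ 2)) / (Sg * (x / L ^ 2)) := by
    field_simp
  rw [e3, abs_div, abs_of_pos (by positivity : 0 < Sg * (x / L ^ 2)), div_le_iff₀ (by positivity)]
  refine e9.trans (le_of_eq ?_)
  ring

open Classical in
/-- Let `F` be a polynomial with integer coefficients of total degree `D ≥ 1` in `n` variables, `b ≥ 2`, and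
let `B`, `A`, `C`, `U`, `W` be natural numbers. For all sufficiently large `k`, for ARBITRARY sets
`S i j ⊆ {0, ..., b - 1}` (`1 ≤ i ≤ n`, `0 ≤ j < k`) with at least two elements, every integer `X` with
`b ^ (k D) (log X) ^ (C + 10) ≤ X ≤ b ^ (k D) (log X) ^ W`, `b ^ (k D) ≤ X`, and every integer `c` with
`|c| ≤ B b ^ (k D)`, all but at most `1 / k ^ U` of the vectors `x = (x 1, ..., x n)`, `0 ≤ x i < b ^ k`, for which the digit
of `x i` at `b ^ j` is in `S i j` for all `i` and `j`, are such that `Holds A C X (c + F(x))`. -/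
theorem result (b n : ℕ) (hb : 2 ≤ b) (F : MvPolynomial (Fin n) ℤ) (hF : 1 ≤ F.totalDegree) (B A C U W : ℕ) :
    ∃ k₀ : ℕ, ∀ k : ℕ, k₀ ≤ k → ∀ S : Fin n → ℕ → Finset ℕ, (∀ i, ∀ j < k, S i j ⊆ range b ∧ 2 ≤ (S i j).card) →
      ∀ X : ℕ, b ^ (k * F.totalDegree) ≤ X → (b : ℝ) ^ (k * F.totalDegree) * Real.log X ^ (C + 10) ≤ X →
      (X : ℝ) ≤ (b : ℝ) ^ (k * F.totalDegree) * Real.log X ^ W →
      ∀ c : ℤ, |c| ≤ (B : ℤ) * (b : ℤ) ^ (k * F.totalDegree) →
      (((Fintype.piFinset fun i => withDigits b k (S i)).filter fun x : Fin n → ℕ =>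
        ¬ Holds A C X (c + MvPolynomial.eval (fun i => (x i : ℤ)) F)).card : ℝ) ≤
        ((Fintype.piFinset fun i => withDigits b k (S i)).card : ℝ) / (k : ℝ) ^ U := by
  obtain ⟨k₀, h0⟩ := Pool.Agent.H56.PD.pairs b n hb F hF B A C (C + 4) U W
  obtain ⟨X₀, h1⟩ := rel C
  refine ⟨k₀ + X₀ + 3, fun k hk S hS X hX0 hX1 hX2 c hc => ?_⟩
  rw [Nat.mul_comm k] at hX0 hX1 hX2 hc
  have hkX : k < X := by
    have h2 : F.totalDegree * k < b ^ (F.totalDegree * k) := Nat.lt_pow_self (by omega)
    have h3 : k ≤ F.totalDegree * k := Nat.le_mul_of_pos_left _ hF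
    omega
  have hX3 : (3 : ℝ) ≤ X := by exact_mod_cast (by omega : 3 ≤ X)
  have hlog1 : 1 ≤ Real.log X := by
    rw [Real.le_log_iff_exp_le (by linarith)]
    have := Real.exp_one_lt_d9
    linarith
  have hX1' : (b : ℝ) ^ (F.totalDegree * k) * Real.log X ^ (C + 4 + 6) ≤ X := hX1
  refine h0 k (by omega) S hS X hX0 hX1' hX2 c hc (Fintype.piFinset fun i => Pool.Agent.H56.PD.withDigits b k (S i)) rfl
    (fun x => ¬ Holds A C X (c + MvPolynomial.eval (fun i => (x i : ℤ)) F)) _ ?_
  intro x _ hbad hgood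
  apply hbad
  intro d hd1 hd2 hd3
  have hg := hgood d hd1.two_dvd (by omega) hd3
  refine ⟨fun y hy1 hy2 => ?_, fun q a hq1 hq2 ha had y hy1 hy2 => ?_⟩
  · obtain ⟨hy, h5⟩ := h1 X (by omega) d y hy1 hy2
    exact h5 (hg 1 0 le_rfl (by rw [Nat.cast_one]; exact one_le_pow₀ hlog1) (Nat.coprime_one_right _)
        (Nat.coprime_one_right _) y hy hy2)
  · have h5 := hg q a hq1 hq2 ha had y hy1 hy2
    rw [pairsIn_eq y d a q (by linarith)] at h5
    have e1 : 𝔖 d = sing d := by
      unfold 𝔖 sing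
      congr 1
    rw [e1]
    refine le_trans h5 ?_
    apply div_le_div_of_nonneg_left (by positivity) (by positivity)
    exact pow_le_pow_right₀ hlog1 (by omega)

end Pool.Agent.Results.MP_678834_nt.ValuesAtRestrictedDigits
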